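import Mathlib

set_option autoImplicit false

open Set

namespace Pool.Agent.Results.MP_6d87e8_lc.Delete

/-- `L` is strongly surjective: it maps onto each nonempty suborder `K` by a weakly
order-preserving surjection. -/
def StronglySurj (L : Type*) [LinearOrder L] : Prop :=
  ∀ K : Set L, K.Nonempty → ∃ f : L → K, Monotone f ∧ Function.Surjective f

/-- Proof device: `L \ {x}` maps monotonically onto `L`. -/
def Surj {L : Type*} [LinearOrder L] (x : L) : Prop :=
  ∃ g : L → L, MonotoneOn g {x}ᶜ ∧ ∀ z, ∃ y, y ≠ x ∧ g y = z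

theorem Surj.dual {L : Type*} [LinearOrder L] {x : L} (h : Surj (OrderDual.toDual x)) : Surj x := by
  obtain ⟨g, h1, h2⟩ := h
  exact ⟨g, fun a ha b hb hab => h1 hb ha hab, h2⟩

theorem shift {L : Type*} [LinearOrder L] (x : L) :
    Surj x ∨ ∃ c, x ≤ c ∧ (Icc x c).Finite ∧ (∀ s, ¬ c ⋖ s) ∧ (Surj c → Surj x) := by
  classical
  have hp : ∀ y, x < y ∧ (Icc x y).Finite → ∃ p, p < y ∧ ∀ w, w < y → w ≤ p := by
    rintro y ⟨h1, h2⟩
    obtain ⟨p, hp1, hp2⟩ := Set.exists_max_image (Ico x y) id (h2.subset Ico_subset_Icc_self)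
      ⟨x, le_rfl, h1⟩
    refine ⟨p, hp1.2, fun w hw => ?_⟩
    rcases le_total x w with h | h
    · exact hp2 w ⟨h, hw⟩
    · exact h.trans hp1.1
  choose! p hp using hp
  let g : L → L := fun y => if x < y ∧ (Icc x y).Finite then p y else y
  have hle : ∀ y, g y ≤ y := fun y => by
    simp only [g]; split_ifs with h
    · exact (hp y h).1.le
    · exact le_rfl
  have hge : ∀ y y', y < y' → y ≤ g y' := fun y y' hy => by
    simp only [g]; split_ifs with h
    · exact (hp y' h).2 y hy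
    · exact hy.le
  have hm : Monotone g := monotone_iff_forall_lt.2 fun y y' hy => (hle y).trans (hge y y' hy)
  have hs : ∀ z, (x ≤ z ∧ (Icc x z).Finite ∧ ∀ s, ¬ z ⋖ s) ∨ ∃ y, y ≠ x ∧ g y = z := by
    intro z
    by_cases h1 : x ≤ z ∧ (Icc x z).Finite
    · by_cases h2 : ∀ s, ¬ z ⋖ s
      · exact Or.inl ⟨h1.1, h1.2, h2⟩
      · push Not at h2
        obtain ⟨s, hs⟩ := h2
        have h3 : x < s ∧ (Icc x s).Finite := ⟨h1.1.trans_lt hs.lt, (h1.2.insert s).subset
          fun w hw => by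
            rcases hw.2.eq_or_lt with h | h
            · exact Or.inl h
            · exact Or.inr ⟨hw.1, hs.le_of_lt h⟩⟩
        refine Or.inr ⟨s, h3.1.ne', le_antisymm ?_ (hge _ _ hs.lt)⟩
        simp only [g, if_pos h3]
        exact hs.le_of_lt (hp s h3).1
    · refine Or.inr ⟨z, fun h => h1 (by subst h; simp), ?_⟩
      simp only [g]
      exact if_neg fun h => h1 ⟨h.1.le, h.2⟩
  by_cases hc : ∃ c, x ≤ c ∧ (Icc x c).Finite ∧ ∀ s, ¬ c ⋖ s
  · obtain ⟨c, h1, h2, h3⟩ := hc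
    refine Or.inr ⟨c, h1, h2, h3, ?_⟩
    rintro ⟨k, hk1, hk2⟩
    have hne : ∀ y, y ≠ x → g y ≠ c := by
      intro y hy hgy
      by_cases h : x < y ∧ (Icc x y).Finite
      · simp only [g, if_pos h] at hgy
        exact h3 y ⟨hgy ▸ (hp y h).1, fun w hw hw' => ((hp y h).2 w hw').not_gt (hgy ▸ hw)⟩
      · simp only [g, if_neg h] at hgy
        subst hgy
        exact h ⟨lt_of_le_of_ne h1 (Ne.symm hy), h2⟩
    refine ⟨k ∘ g, fun a ha b hb hab => hk1 (hne a ha) (hne b hb) (hm hab), fun z => ?_⟩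
    obtain ⟨w, hw, rfl⟩ := hk2 z
    rcases hs w with ⟨a1, a2, a3⟩ | ⟨y, hy, rfl⟩
    · exfalso
      have aux : ∀ u v : L, x ≤ u → (Icc x v).Finite → (∀ s, ¬ u ⋖ s) → ¬ u < v := by
        intro u v hu hv hn huv
        obtain ⟨s, hs1, hs2⟩ := Set.exists_min_image (Ioc u v) id
          (hv.subset fun t ht => ⟨hu.trans ht.1.le, ht.2⟩) ⟨v, huv, le_rfl⟩
        exact hn s ⟨hs1.1, fun t ht ht' => (hs2 t ⟨ht, ht'.le.trans hs1.2⟩).not_gt ht'⟩
      exact hw (le_antisymm (not_lt.1 (aux c w h1 a2 h3)) (not_lt.1 (aux w c a1 h2 a3)))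
    · exact ⟨y, hy, rfl⟩
  · exact Or.inl ⟨g, hm.monotoneOn _, fun z => (hs z).resolve_left fun h => hc ⟨z, h⟩⟩

theorem half {L : Type*} [LinearOrder L] {a c x : L} (hax : a ≤ x) (hxc : x ≤ c)
    (hfin : (Icc a c).Finite) (f : L → L) (hm : Monotone f) (hK : ∀ y, f y < a ∨ c < f y)
    (hs : ∀ z, z < a ∨ c < z → ∃ y, f y = z) (hc : ∀ s, ¬ c ⋖ s) (hx : c < f x) : Surj a := by
  have hd : ∃ d, d < a ∧ c < f d := by
    by_contra hn
    push Not at hn
    obtain ⟨m, hm1, hm2⟩ := Set.exists_min_image {y | y ∈ Icc a c ∧ c < f y} id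
      (hfin.subset fun y hy => hy.1) ⟨x, ⟨hax, hxc⟩, hx⟩
    refine hc (f m) ⟨hm1.2, fun z hz hz' => ?_⟩
    obtain ⟨y, rfl⟩ := hs z (Or.inr hz)
    have h1 : y < m := lt_of_not_ge fun h => hz'.not_ge (hm h)
    have h2 : a ≤ y := le_of_not_gt fun h => hz.not_ge (hn y h)
    exact h1.not_ge (hm2 y ⟨⟨h2, h1.le.trans hm1.1.2⟩, hz⟩)
  obtain ⟨d, hd1, hd2⟩ := hd
  refine ⟨fun y => if y < a then min (f y) a else y, fun y _ y' _ hy => ?_, fun z => ?_⟩
  · by_cases h1 : y' < a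
    · simp only [if_pos h1, if_pos (hy.trans_lt h1)]
      exact min_le_min_right _ (hm hy)
    · simp only [if_neg h1]
      split_ifs
      · exact (min_le_right _ _).trans (not_lt.1 h1)
      · exact hy
  · rcases lt_trichotomy z a with h | rfl | h
    · obtain ⟨y, rfl⟩ := hs z (Or.inl h)
      have h1 : y < d := lt_of_not_ge fun h' => (hm h').not_gt (h.trans_le ((hax.trans hxc).trans hd2.le))
      exact ⟨y, (h1.trans hd1).ne, by simp [h1.trans hd1, h.le]⟩
    · exact ⟨d, hd1.ne, by simp [hd1, (hax.trans hxc).trans hd2.le]⟩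
    · exact ⟨z, h.ne', by simp [h.le.not_gt]⟩

theorem fin_case (M : Type*) [LinearOrder M] [Finite M] : StronglySurj M := by
  classical
  intro K hK
  have : Nonempty K := hK.to_subtype
  have := Fintype.ofFinite K
  obtain ⟨t, ht⟩ := Finite.exists_max (id : K → K)
  have hne : ∀ y : M, (Finset.univ.filter fun k : K => y ≤ k ∨ k = t).Nonempty :=
    fun y => ⟨t, by simp⟩
  refine ⟨fun y => Finset.min' _ (hne y), fun y y' hy => ?_, fun k => ⟨k, le_antisymm ?_ ?_⟩⟩
  · refine Finset.min'_subset _ fun k hk => ?_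
    simp only [Finset.mem_filter, Finset.mem_univ, true_and] at hk ⊢
    exact hk.imp_left hy.trans
  · exact Finset.min'_le _ _ (by simp)
  · refine Finset.le_min' _ _ _ fun k' hk' => ?_
    simp only [Finset.mem_filter, Finset.mem_univ, true_and] at hk'
    rcases hk' with h | rfl
    · exact h
    · exact ht k

theorem main {L : Type*} [LinearOrder L] (h : StronglySurj L) (x : L) : Finite L ∨ Surj x := by
  rcases shift x with h1 | ⟨c, hxc, hc1, hc2, hc3⟩
  · exact Or.inr h1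
  rcases shift (OrderDual.toDual x) with h1 | ⟨a, hax, ha1, ha2, ha3⟩
  · exact Or.inr h1.dual
  let a' : L := OrderDual.ofDual a
  have hax' : a' ≤ x := hax
  have ha1' : (Icc a' x).Finite := ha1.subset fun y hy => ⟨hy.2, hy.1⟩
  have hfin : (Icc a' c).Finite := (ha1'.union hc1).subset fun y hy =>
    (le_total y x).imp (fun h => ⟨hy.1, h⟩) fun h => ⟨h, hy.2⟩
  rcases (Icc a' c)ᶜ.eq_empty_or_nonempty with he | he
  · rw [compl_empty_iff] at he
    exact Or.inl (finite_univ_iff.1 (he ▸ hfin))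
  obtain ⟨f, hf1, hf2⟩ := h _ he
  have hm : Monotone fun y => (f y : L) := fun y y' hy => hf1 hy
  have hK : ∀ y, (f y : L) < a' ∨ c < f y := fun y => by
    have h2 : ¬ (a' ≤ (f y : L) ∧ (f y : L) ≤ c) := (f y).2
    rwa [not_and_or, not_le, not_le] at h2
  have hs : ∀ z, z < a' ∨ c < z → ∃ y, (f y : L) = z := fun z hz => by
    obtain ⟨y, hy⟩ := hf2 ⟨z, by simpa [not_and_or, -not_and] using hz⟩
    exact ⟨y, by rw [hy]⟩
  right
  rcases hK x with hx | hx
  · refine hc3 (Surj.dual ?_)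
    exact half (L := Lᵒᵈ) (a := OrderDual.toDual c) (c := a) (x := OrderDual.toDual x) hxc hax
      (hfin.subset fun y hy => ⟨hy.2, hy.1⟩) (fun y => (f y : L)) (fun y y' hy => hm hy)
      (fun y => (hK y).symm) (fun z hz => hs z hz.symm) ha2 hx
  · obtain ⟨g, h1, h2⟩ := half hax' hxc hfin _ hm hK hs hc2 hx
    exact (ha3 ⟨g, fun u hu v hv huv => h1 hv hu huv, h2⟩).dual

theorem result (L : Type*) [LinearOrder L] (h : StronglySurj L) (x : L) :
    StronglySurj {y : L // y ≠ x} := by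
  rcases main h x with h1 | ⟨g, hg1, hg2⟩
  · exact fin_case _
  intro K hK
  obtain ⟨f, hf1, hf2⟩ := h (Subtype.val '' K) (hK.image _)
  have hx : ∀ z : Subtype.val '' K, ∃ k : K, (k.1 : L) = z := by
    rintro ⟨_, k, hk, rfl⟩; exact ⟨⟨k, hk⟩, rfl⟩
  choose e he using hx
  refine ⟨fun y => e (f (g y)), fun y y' hy => ?_, fun k => ?_⟩
  · change ((e (f (g y))).1 : L) ≤ (e (f (g y'))).1
    rw [he, he]
    exact hf1 (hg1 y.2 y'.2 hy)
  · obtain ⟨z, hz⟩ := hf2 ⟨k.1, k.1, k.2, rfl⟩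
    obtain ⟨y, hy, rfl⟩ := hg2 z
    refine ⟨⟨y, hy⟩, Subtype.ext (Subtype.ext ?_)⟩
    change ((e (f (g y))).1 : L) = _
    rw [he, hz]

end Pool.Agent.Results.MP_6d87e8_lc.Delete
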